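import Pool.Agent.K1H98.NF.Stm
import Pool.Agent.R355.Dirichlet

/-! # Coordinates of small algebraic integers: `S_CO` -/

set_option autoImplicit false

namespace Pool.Agent.K1H63.NF

open Module Pool.Agent.K1H98.NF

theorem t_CO : S_CO := by
  intro hA hZ F _ _ d hd ι _ β H hH hβ
  obtain ⟨m, f, hli, hr⟩ := hA F ι 1 one_ne_zero β
  have hm : m + 1 ≤ d := by
    have h1 := hli.fintype_card_le_finrank
    rw [Fintype.card_fin] at h1
    exact h1.trans hd
  have hmR : (m : ℝ) + 1 ≤ d := by exact_mod_cast hm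
  have hH0 : 0 < H := by linarith
  refine ⟨m, f, hm, fun i => ?_⟩
  obtain ⟨r0, r, hri, hr1⟩ := hr i
  obtain ⟨P, hP⟩ : ∃ P : ℕ, P = ⌊(d : ℝ) * H⌋₊ + 1 := ⟨_, rfl⟩
  have hP1 : (d : ℝ) * H < P := by
    rw [hP]
    push_cast
    exact Nat.lt_floor_add_one _
  have hP2 : (P : ℝ) ≤ d * H + 1 := by
    rw [hP]
    push_cast
    have := Nat.floor_le (a := (d : ℝ) * H) (by positivity)
    linarith
  have hP0 : 1 ≤ P := by omega
  have hPR : (0 : ℝ) < P := by exact_mod_cast hP0
  obtain ⟨q, hq1, hq2, hq⟩ := Pool.Agent.R355.dirichlet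
    (Fin.cons (r0 : ℝ) (fun k => (r k : ℝ)) : Fin (m + 1) → ℝ) hP0
  choose p hp using hq
  have hp0 : |(q : ℝ) * r0 - p 0| < 1 / P := by simpa using hp 0
  have hpk : ∀ k : Fin m, |(q : ℝ) * r k - p k.succ| < 1 / P := fun k => by simpa using hp k.succ
  -- the element `γ`
  obtain ⟨γ, hγ⟩ : ∃ γ : F, γ = (q : F) * β i - (p 0 : F) - ∑ k, (p k.succ : F) * β (f k) :=
    ⟨_, rfl⟩
  have hγ2 : γ = (((q : ℚ) * r0 - p 0 : ℚ) : F) +
      ∑ k, (((q : ℚ) * r k - p k.succ : ℚ) : F) * β (f k) := by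
    rw [hγ, hri]
    simp only [Rat.smul_def]
    push_cast
    simp only [sub_mul, Finset.sum_sub_distrib, mul_add, Finset.mul_sum, mul_one]
    have : ∀ k, (q : F) * ((r k : F) * β (f k)) = (q : F) * (r k : F) * β (f k) := fun k => by ring
    simp only [this]
    ring
  have hint : ∀ z : ℤ, IsIntegral ℤ (z : F) := fun z => by
    have := isIntegral_algebraMap (R := ℤ) (A := F) (x := z)
    simpa using this
  have hγi : IsIntegral ℤ γ := by
    rw [hγ]
    refine ((IsIntegral.mul ?_ (hβ i).1).sub (hint _)).sub (IsIntegral.sum _ fun k _ =>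
      (hint _).mul (hβ (f k)).1)
    have := hint (q : ℤ)
    simpa using this
  have hγn : ∀ σ : F →+* ℂ, ‖σ γ‖ < 1 := by
    intro σ
    have e1 : σ γ = (((q : ℝ) * r0 - p 0 : ℝ) : ℂ) +
        ∑ k, (((q : ℝ) * r k - p k.succ : ℝ) : ℂ) * σ (β (f k)) := by
      rw [hγ2]
      simp only [map_add, map_sum, map_mul, map_ratCast]
      push_cast
      rfl
    have e2 : ‖σ γ‖ ≤ 1 / P + ∑ _k : Fin m, 1 / P * H := by
      rw [e1]
      refine (norm_add_le _ _).trans (add_le_add ?_ ((norm_sum_le _ _).trans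
        (Finset.sum_le_sum fun k _ => ?_)))
      · rw [Complex.norm_real, Real.norm_eq_abs]
        exact hp0.le
      · rw [norm_mul, Complex.norm_real, Real.norm_eq_abs]
        exact mul_le_mul (hpk k).le ((hβ (f k)).2 σ) (norm_nonneg _) (by positivity)
    rw [Finset.sum_const, Finset.card_univ, Fintype.card_fin, nsmul_eq_mul] at e2
    have e3 : (1 : ℝ) / P + m * (1 / P * H) ≤ ((m + 1) * H) / P := by
      rw [div_add' _ _ _ hPR.ne', div_le_div_iff_of_pos_right hPR]
      field_simp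
      nlinarith
    have e4 : ((m : ℝ) + 1) * H / P < 1 := by
      rw [div_lt_one hPR]
      refine lt_of_le_of_lt ?_ hP1
      gcongr
    linarith
  have hγ0 := hZ F γ hγi hγn
  -- the coefficients
  have hk : ∀ k, (p k.succ : ℝ) = q * r k := by
    rw [Fintype.linearIndependent_iff] at hli
    have h1 := hli (Fin.cons ((q : ℚ) * r0 - p 0) (fun k => (q : ℚ) * r k - p k.succ)) (by
      rw [Fin.sum_univ_succ]
      simp only [Fin.cons_zero, Fin.cons_succ, Rat.smul_def, mul_one]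
      rw [← hγ2, hγ0])
    intro k
    have h2 := h1 k.succ
    simp only [Fin.cons_succ] at h2
    have h3 : (q : ℚ) * r k = p k.succ := sub_eq_zero.1 h2
    have h4 := congrArg (fun t : ℚ => (t : ℝ)) h3
    push_cast at h4
    exact h4.symm
  have hpq : ∀ k, |(p (Fin.succ k) : ℝ)| ≤ q := by
    intro k
    rw [hk, abs_mul, abs_of_nonneg (by positivity : (0 : ℝ) ≤ q)]
    have h1 : |(r k : ℝ)| ≤ 1 := by exact_mod_cast hr1 k
    calc (q : ℝ) * |(r k : ℝ)| ≤ q * 1 := by gcongr
      _ = q := mul_one _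
  have heq : (q : F) * β i = p 0 + ∑ k, (p (Fin.succ k) : F) * β (f k) := by
    rw [hγ] at hγ0
    linear_combination hγ0
  refine ⟨q, p 0, fun k => p k.succ, hq1, ?_, hpq, ?_, heq⟩
  · calc (q : ℝ) ≤ ((P ^ (m + 1) : ℕ) : ℝ) := by exact_mod_cast hq2
      _ = (P : ℝ) ^ (m + 1) := by push_cast; rfl
      _ ≤ (d * H + 1) ^ (m + 1) := by gcongr
      _ ≤ (d * H + 1) ^ d := by
          refine pow_le_pow_right₀ ?_ hm
          have : 0 ≤ (d : ℝ) * H := by positivity
          linarith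
  · obtain ⟨σ⟩ : Nonempty (F →+* ℂ) := inferInstance
    have h1 := congrArg σ heq
    simp only [map_mul, map_add, map_sum, map_natCast, map_intCast] at h1
    have h2 : ((p 0 : ℤ) : ℂ) = (q : ℂ) * σ (β i) - ∑ k, (p (Fin.succ k) : ℂ) * σ (β (f k)) := by
      rw [h1]
      ring
    have h3 : |(p 0 : ℝ)| = ‖((p 0 : ℤ) : ℂ)‖ := by
      rw [Complex.norm_intCast]
    rw [h3, h2]
    have h4 : ‖(q : ℂ) * σ (β i) - ∑ k, (p (Fin.succ k) : ℂ) * σ (β (f k))‖ ≤
        q * H + ∑ _k : Fin m, (q : ℝ) * H := by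
      refine (norm_sub_le _ _).trans (add_le_add ?_ ((norm_sum_le _ _).trans
        (Finset.sum_le_sum fun k _ => ?_)))
      · rw [norm_mul, Complex.norm_natCast]
        exact mul_le_mul_of_nonneg_left ((hβ i).2 σ) (by positivity)
      · rw [norm_mul, Complex.norm_intCast]
        exact mul_le_mul (hpq k) ((hβ (f k)).2 σ) (norm_nonneg _) (by positivity)
    refine h4.trans ?_
    rw [Finset.sum_const, Finset.card_univ, Fintype.card_fin, nsmul_eq_mul]
    calc (q : ℝ) * H + m * (q * H) = (m + 1) * (H * q) := by ring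
      _ ≤ d * (H * q) := by gcongr
      _ = d * H * q := by ring

end Pool.Agent.K1H63.NF
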